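import Pool.Agent.Q161.ESV.Stm2

/-!
# Project ESV (helper161), job CHI (helper162): the quadratic characters
-/

set_option autoImplicit false

namespace Pool.Agent.Q162.ESV

open NumberField IsDedekindDomain Finset
open Pool.Agent.Q161.ESV

section

variable {F : Type} [Field F]

theorem sq_cases {D : F} {s t : AlgebraicClosure F} (hs : s ^ 2 = algebraMap F _ D) (ht : t ^ 2 = algebraMap F _ D) :
    t = s ∨ t = -s := sq_eq_sq_iff_eq_or_eq_neg.1 (ht.trans hs.symm)

theorem sq_map {D : F} {s : AlgebraicClosure F} (hs : s ^ 2 = algebraMap F _ D) (σ : GF F) :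
    (σ s) ^ 2 = algebraMap F _ D := by
  rw [← map_pow, hs]
  exact σ.commutes D

theorem chi_one {D : F} {s : AlgebraicClosure F} (hs : s ^ 2 = algebraMap F _ D) {σ : GF F} (h : σ s = s) :
    chi D σ = 1 := by
  unfold chi
  rw [if_pos]
  intro t ht
  rcases sq_cases hs ht with rfl | rfl
  · exact h
  · rw [map_neg, h]

theorem chi_or (D : F) (σ : GF F) : chi D σ = 1 ∨ chi D σ = -1 := by
  unfold chi
  split_ifs
  · exact Or.inl rfl
  · exact Or.inr rfl

theorem chi_smul {D : F} (σ : GF F) {s : AlgebraicClosure F} (hs : s ^ 2 = algebraMap F _ D) :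
    σ s = chi D σ • s := by
  rcases sq_cases hs (sq_map hs σ) with h | h
  · rw [chi_one hs h, one_smul, h]
  · by_cases h0 : s = -s
    · rw [chi_one hs (h.trans h0.symm), one_smul, h, ← h0]
    · have h1 : chi D σ = -1 := by
        unfold chi
        rw [if_neg]
        intro h2
        exact h0 ((h2 s hs).symm.trans h)
      rw [h1, h, neg_smul, one_smul]

end

/-- **JOB CHI** -/
theorem chi_ : S_CHI := by
  intro F _ _
  refine ⟨fun D => ⟨chi_or D, ?_, fun σ s hs => chi_smul σ hs, ?_⟩, ?_, ?_⟩
  · intro σ τ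
    obtain ⟨s, hs⟩ := IsAlgClosed.exists_pow_nat_eq (algebraMap F (AlgebraicClosure F) D) (n := 2) (by norm_num)
    by_cases h0 : s = 0
    · have h1 : ∀ ρ : GF F, chi D ρ = 1 := fun ρ => chi_one hs (by rw [h0, map_zero])
      rw [h1, h1, h1, one_mul]
    · have h1 := chi_smul (σ * τ) hs
      have h2 : (σ * τ) s = σ (τ s) := rfl
      rw [h2, chi_smul τ hs, map_zsmul, chi_smul σ hs, smul_smul, zsmul_eq_mul, zsmul_eq_mul] at h1
      have h3 := mul_right_cancel₀ h0 h1
      have h4 : CharZero (AlgebraicClosure F) := charZero_of_injective_algebraMap (algebraMap F (AlgebraicClosure F)).injective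
      have h5 : chi D τ * chi D σ = chi D (σ * τ) := by exact_mod_cast h3
      rw [← h5, mul_comm]
  · obtain ⟨s, hs⟩ := IsAlgClosed.exists_pow_nat_eq (algebraMap F (AlgebraicClosure F) D) (n := 2) (by norm_num)
    have hint : IsIntegral F s := by
      refine IsIntegral.of_pow (n := 2) (by norm_num) ?_
      rw [hs]
      exact isIntegral_algebraMap
    refine ⟨IntermediateField.adjoin F {s}, IntermediateField.adjoin.finiteDimensional hint, ?_⟩
    intro σ hσ
    refine chi_one hs ?_
    exact (IntermediateField.mem_fixingSubgroup_iff _ _).1 hσ s (IntermediateField.mem_adjoin_simple_self F s)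
  · intro D u hu
    funext σ
    have hu' : algebraMap F (AlgebraicClosure F) u ≠ 0 := (map_ne_zero _).2 hu
    have h : (∀ s : AlgebraicClosure F, s ^ 2 = algebraMap F _ (D * u ^ 2) → σ s = s) ↔
        (∀ s : AlgebraicClosure F, s ^ 2 = algebraMap F _ D → σ s = s) := by
      constructor
      · intro h s hs
        have h1 := h (s * algebraMap F _ u) (by rw [mul_pow, hs, map_mul, map_pow])
        rw [map_mul, σ.commutes] at h1
        exact mul_right_cancel₀ hu' h1
      · intro h s hs
        have h1 := h (s / algebraMap F _ u) (by rw [div_pow, hs, map_mul, map_pow, mul_div_cancel_right₀ _ (pow_ne_zero _ hu')])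
        rw [map_div₀, σ.commutes] at h1
        exact (div_left_inj' hu').1 h1
    unfold chi
    by_cases hc : ∀ s : AlgebraicClosure F, s ^ 2 = algebraMap F _ D → σ s = s
    · rw [if_pos hc, if_pos (h.2 hc)]
    · rw [if_neg hc, if_neg (fun h' => hc (h.1 h'))]
  · intro K _ _ _ _ e σ
    let _ : Algebra K (AlgebraicClosure F) := e.toRingHom.toAlgebra
    have : IsScalarTower F K (AlgebraicClosure F) := IsScalarTower.of_algebraMap_eq (fun x => (e.commutes x).symm)
    have : Normal F K := Normal.tower_top_of_normal ℚ F K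
    exact ⟨AlgEquiv.restrictNormal σ K, fun x => (AlgEquiv.restrictNormal_commutes σ K x).symm⟩

end Pool.Agent.Q162.ESV
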